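import Mathlib

/-!
# Group theory for the Brauer class correspondence (squad ML, row EXG)
-/

open scoped Pointwise

namespace Pool.Agent.PP.ML.H65

variable {ℓ : ℕ} [hℓ : Fact ℓ.Prime] {G : Type} [Group G] [Finite G]

/-- Sylow subgroups of a subgroup are conjugate -/
theorem syl_conj {K D E : Subgroup G} (hD : IsPGroup ℓ D) (hE : IsPGroup ℓ E) (hDK : D ≤ K)
    (hEK : E ≤ K) (hDi : ¬ ℓ ∣ D.relIndex K) (hEi : ¬ ℓ ∣ E.relIndex K) :
    ∃ u ∈ K, ∀ e, e ∈ E ↔ u * e * u⁻¹ ∈ D := by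
  have hD' : IsPGroup ℓ (D.subgroupOf K) := hD.comap_subtype
  have hE' : IsPGroup ℓ (E.subgroupOf K) := hE.comap_subtype
  obtain ⟨u, hu⟩ := MulAction.exists_smul_eq K (hE'.toSylow hEi) (hD'.toSylow hDi)
  have hmem : ∀ e : K, e ∈ E.subgroupOf K ↔ u * e * u⁻¹ ∈ D.subgroupOf K := by
    intro e
    have h1 : ((u • (hE'.toSylow hEi) : Sylow ℓ K) : Subgroup K) =
        MulAut.conj u • (E.subgroupOf K) := rfl
    rw [hu] at h1
    have h2 : D.subgroupOf K = MulAut.conj u • (E.subgroupOf K) := h1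
    rw [h2]
    have h3 : u * e * u⁻¹ = MulAut.conj u • e := rfl
    rw [h3, Subgroup.smul_mem_pointwise_smul_iff]
  refine ⟨u, u.2, fun e => ?_⟩
  constructor
  · intro he
    have := (hmem ⟨e, hEK he⟩).1 (Subgroup.mem_subgroupOf.2 he)
    exact Subgroup.mem_subgroupOf.1 this
  · intro he
    have heK : e ∈ K := by
      have h1 := K.mul_mem (K.mul_mem (K.inv_mem u.2) (hDK he)) u.2
      have h2 : (u : G)⁻¹ * (u * e * (u : G)⁻¹) * u = e := by group
      rwa [h2] at h1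
    exact (hmem ⟨e, heK⟩).2 (Subgroup.mem_subgroupOf.2 he)

/-- the normalizer step -/
theorem norm_step {K D : Subgroup G} (hD : IsPGroup ℓ D) (hDK : D ≤ K)
    (h : ¬ ℓ ∣ D.relIndex (Subgroup.normalizer (D : Set G) ⊓ K)) : ¬ ℓ ∣ D.relIndex K := by
  have hD' : IsPGroup ℓ (D.subgroupOf K) := hD.comap_subtype
  obtain ⟨n, hn⟩ := hD'.exists_card_eq
  have h1 := Sylow.card_quotient_normalizer_modEq_card_quotient hn
  have h2 : Nat.card (K ⧸ D.subgroupOf K) = D.relIndex K := rfl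
  have h3 : Nat.card (Subgroup.normalizer ((D.subgroupOf K : Subgroup K) : Set K) ⧸
      (D.subgroupOf K).comap (Subgroup.normalizer ((D.subgroupOf K : Subgroup K) : Set K)).subtype) =
      D.relIndex (Subgroup.normalizer (D : Set G) ⊓ K) := by
    have h4 : Nat.card (Subgroup.normalizer ((D.subgroupOf K : Subgroup K) : Set K) ⧸
      (D.subgroupOf K).comap (Subgroup.normalizer ((D.subgroupOf K : Subgroup K) : Set K)).subtype) =
      (D.subgroupOf K).relIndex (Subgroup.normalizer ((D.subgroupOf K : Subgroup K) : Set K)) := rfl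
    rw [h4, ← Subgroup.subgroupOf_normalizer_eq hDK, ← Subgroup.inf_subgroupOf_right (Subgroup.normalizer (D : Set G)) K,
      Subgroup.relIndex_subgroupOf inf_le_right]
  rw [h3, h2] at h1
  intro hd
  apply h
  exact (Nat.modEq_zero_iff_dvd).1 (h1.trans ((Nat.modEq_zero_iff_dvd).2 hd))

/-- central `ℓ`-elements are in the Sylow subgroups -/
theorem central_mem {K D : Subgroup G} (hD : IsPGroup ℓ D) (hDK : D ≤ K)
    (hDi : ¬ ℓ ∣ D.relIndex K) {y : G} (hyK : y ∈ K) (hyc : ∀ d ∈ D, y * d = d * y) {a : ℕ}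
    (hy : y ^ (ℓ ^ a) = 1) : y ∈ D := by
  have hZ : IsPGroup ℓ (Subgroup.zpowers y) := by
    intro ⟨w, hw⟩
    refine ⟨a, ?_⟩
    obtain ⟨m, rfl⟩ := Subgroup.mem_zpowers_iff.1 hw
    apply Subtype.ext
    show (y ^ m) ^ (ℓ ^ a) = 1
    rw [← zpow_natCast, ← zpow_mul, mul_comm, zpow_mul, zpow_natCast, hy, one_zpow]
  have hDN : D ≤ Subgroup.normalizer ((Subgroup.zpowers y : Subgroup G) : Set G) := by
    intro d hd
    have hcomm : Commute d y := (hyc d hd).symm
    rw [Subgroup.mem_normalizer_iff]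
    intro w
    constructor
    · intro hw
      obtain ⟨m, rfl⟩ := Subgroup.mem_zpowers_iff.1 hw
      have : d * y ^ m * d⁻¹ = y ^ m := by
        rw [(hcomm.zpow_right m).eq, mul_assoc, mul_inv_cancel, mul_one]
      rw [this]
      exact hw
    · intro hw
      obtain ⟨m, hm⟩ := Subgroup.mem_zpowers_iff.1 hw
      have : w = y ^ m := by
        have h1 : w = d⁻¹ * (d * w * d⁻¹) * d := by group
        rw [h1, ← hm, ((hcomm.zpow_right m).inv_left).eq, mul_assoc, inv_mul_cancel, mul_one]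
      rw [this]
      exact Subgroup.zpow_mem_zpowers y m
  have hS : IsPGroup ℓ (D ⊔ Subgroup.zpowers y : Subgroup G) :=
    hD.to_sup_of_normal_right' hZ hDN
  have hSK : D ⊔ Subgroup.zpowers y ≤ K :=
    sup_le hDK (Subgroup.zpowers_le.2 hyK)
  have h1 := Subgroup.relIndex_mul_relIndex D (D ⊔ Subgroup.zpowers y) K le_sup_left hSK
  have h2 : ¬ ℓ ∣ D.relIndex (D ⊔ Subgroup.zpowers y) := fun h => hDi (h1 ▸ h.mul_right _)
  obtain ⟨n, hn⟩ := hS.index (D.subgroupOf (D ⊔ Subgroup.zpowers y))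
  have h3 : D.relIndex (D ⊔ Subgroup.zpowers y) = ℓ ^ n := hn
  have h4 : n = 0 := by
    by_contra hne
    apply h2
    rw [h3]
    exact dvd_pow_self ℓ hne
  rw [h4, pow_zero, Subgroup.relIndex_eq_one] at h3
  exact h3 (Subgroup.mem_sup_right (Subgroup.mem_zpowers y))

/-- the conjugates of `g` in the centralizer of `D` -/
theorem conj_in {D : Subgroup G} (hD : IsPGroup ℓ D) {g y : G}
    (hg : ∀ d ∈ D, g * d = d * g)
    (hi : ¬ ℓ ∣ D.relIndex (Subgroup.centralizer ({g} : Set G)))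
    (hy : ∀ d ∈ D, y * d = d * y) (hc : IsConj g y) :
    ∃ n ∈ Subgroup.normalizer (D : Set G), n * g * n⁻¹ = y := by
  obtain ⟨h, hh⟩ := isConj_iff.1 hc
  have hcent : ∀ (a w : G), w ∈ Subgroup.centralizer ({a} : Set G) ↔ w * a = a * w := by
    intro a w
    rw [Subgroup.mem_centralizer_singleton_iff]
  obtain ⟨E, hE⟩ : ∃ E : Subgroup G, E = D.map (MulAut.conj h).toMonoidHom := ⟨_, rfl⟩
  have hEmem : ∀ w, w ∈ E ↔ h⁻¹ * w * h ∈ D := by
    intro w
    rw [hE, Subgroup.mem_map]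
    constructor
    · rintro ⟨d, hd, rfl⟩
      have : h⁻¹ * ((MulAut.conj h).toMonoidHom d) * h = d := by
        show h⁻¹ * (h * d * h⁻¹) * h = d
        group
      rwa [this]
    · intro hw
      refine ⟨_, hw, ?_⟩
      show h * (h⁻¹ * w * h) * h⁻¹ = w
      group
  have hKmap : Subgroup.centralizer ({y} : Set G) =
      (Subgroup.centralizer ({g} : Set G)).map (MulAut.conj h).toMonoidHom := by
    ext w
    rw [Subgroup.mem_map, hcent]
    constructor
    · intro hw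
      refine ⟨h⁻¹ * w * h, ?_, ?_⟩
      · rw [hcent]
        have h1 : g = h⁻¹ * y * h := by rw [← hh]; group
        rw [h1]
        calc h⁻¹ * w * h * (h⁻¹ * y * h) = h⁻¹ * (w * y) * h := by group
          _ = h⁻¹ * (y * w) * h := by rw [hw]
          _ = h⁻¹ * y * h * (h⁻¹ * w * h) := by group
      · show h * (h⁻¹ * w * h) * h⁻¹ = w
        group
    · rintro ⟨v, hv, rfl⟩
      rw [hcent] at hv
      show h * v * h⁻¹ * y = y * (h * v * h⁻¹)
      rw [← hh]
      calc h * v * h⁻¹ * (h * g * h⁻¹) = h * (v * g) * h⁻¹ := by group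
        _ = h * (g * v) * h⁻¹ := by rw [hv]
        _ = h * g * h⁻¹ * (h * v * h⁻¹) := by group
  have hEp : IsPGroup ℓ E := by
    rw [hE]
    exact hD.map _
  have hDg : D ≤ Subgroup.centralizer ({g} : Set G) := fun d hd => (hcent g d).2 (hg d hd).symm
  have hDK : D ≤ Subgroup.centralizer ({y} : Set G) := fun d hd => (hcent y d).2 (hy d hd).symm
  have hEK : E ≤ Subgroup.centralizer ({y} : Set G) := by
    rw [hKmap, hE]
    exact Subgroup.map_mono hDg
  have hEi : E.relIndex (Subgroup.centralizer ({y} : Set G)) =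
      D.relIndex (Subgroup.centralizer ({g} : Set G)) := by
    rw [hKmap, hE]
    exact Subgroup.relIndex_map_map_of_injective _ _ (MulAut.conj h).injective
  -- the cardinality gives the index of `D`
  have hcardE : Nat.card E = Nat.card D := by
    rw [hE]
    exact Subgroup.card_map_of_injective (MulAut.conj h).injective
  have hDi : D.relIndex (Subgroup.centralizer ({y} : Set G)) =
      E.relIndex (Subgroup.centralizer ({y} : Set G)) := by
    have h1 := Subgroup.relIndex_mul_relIndex ⊥ D _ bot_le hDK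
    have h2 := Subgroup.relIndex_mul_relIndex ⊥ E _ bot_le hEK
    rw [Subgroup.relIndex_bot_left] at h1 h2
    rw [hcardE, ← h1] at h2
    exact (Nat.eq_of_mul_eq_mul_left Nat.card_pos h2).symm
  obtain ⟨u, huK, hu⟩ := syl_conj hD hEp hDK hEK (by rw [hDi, hEi]; exact hi)
    (by rw [hEi]; exact hi)
  refine ⟨u * h, ?_, ?_⟩
  · rw [Subgroup.mem_normalizer_iff]
    intro d
    have h1 := hu (h * d * h⁻¹)
    rw [hEmem] at h1
    have h2 : h⁻¹ * (h * d * h⁻¹) * h = d := by group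
    have h3 : u * (h * d * h⁻¹) * u⁻¹ = u * h * d * (u * h)⁻¹ := by group
    rw [h2, h3] at h1
    exact h1
  · rw [hcent] at huK
    calc u * h * g * (u * h)⁻¹ = u * (h * g * h⁻¹) * u⁻¹ := by group
      _ = u * y * u⁻¹ := by rw [hh]
      _ = y := by rw [huK]; group

/-- a transversal -/
theorem transversal (H K : Subgroup G) (_ : H ≤ K) : ∃ R : Finset G, (∀ r ∈ R, r ∈ K) ∧
    (∀ k ∈ K, ∃ r ∈ R, r⁻¹ * k ∈ H) ∧ (∀ r ∈ R, ∀ r' ∈ R, r⁻¹ * r' ∈ H → r = r') ∧
    R.card = H.relIndex K := by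
  classical
  have := Fintype.ofFinite (K ⧸ H.subgroupOf K)
  refine ⟨Finset.univ.image fun q : K ⧸ H.subgroupOf K => ((Quotient.out q : K) : G), ?_, ?_, ?_, ?_⟩
  · intro r hr
    obtain ⟨q, -, rfl⟩ := Finset.mem_image.1 hr
    exact (Quotient.out q : K).2
  · intro k hk
    refine ⟨_, Finset.mem_image.2 ⟨((⟨k, hk⟩ : K) : K ⧸ H.subgroupOf K), Finset.mem_univ _, rfl⟩, ?_⟩
    have h1 : (((Quotient.out ((⟨k, hk⟩ : K) : K ⧸ H.subgroupOf K) : K)) : K ⧸ H.subgroupOf K) =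
        ((⟨k, hk⟩ : K) : K ⧸ H.subgroupOf K) := Quotient.out_eq' _
    rw [QuotientGroup.eq, Subgroup.mem_subgroupOf] at h1
    exact h1
  · intro r hr r' hr' h
    obtain ⟨q, -, rfl⟩ := Finset.mem_image.1 hr
    obtain ⟨q', -, rfl⟩ := Finset.mem_image.1 hr'
    have h1 : ((Quotient.out q : K) : K ⧸ H.subgroupOf K) =
        ((Quotient.out q' : K) : K ⧸ H.subgroupOf K) := by
      rw [QuotientGroup.eq, Subgroup.mem_subgroupOf]
      exact h
    have h2 : ((Quotient.out q : K) : K ⧸ H.subgroupOf K) = q := Quotient.out_eq' q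
    have h3 : ((Quotient.out q' : K) : K ⧸ H.subgroupOf K) = q' := Quotient.out_eq' q'
    rw [h2, h3] at h1
    rw [h1]
  · rw [Finset.card_image_of_injective, Finset.card_univ, ← Nat.card_eq_fintype_card]
    · rfl
    · intro q q' h
      have h1 : (Quotient.out q : K) = Quotient.out q' := Subtype.ext h
      exact Quotient.out_inj.1 h1

/-- the two parts are powers -/
theorem powers {z s : G} (hc : Commute z s) {b m : ℕ} (hz : z ^ (ℓ ^ b) = 1) (hs : s ^ m = 1)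
    (hm : ¬ ℓ ∣ m) : ∃ k k' : ℕ, (z * s) ^ k = z ∧ (z * s) ^ k' = s := by
  have hcop : Nat.Coprime (ℓ ^ b) m :=
    Nat.Coprime.pow_left b ((Nat.Prime.coprime_iff_not_dvd hℓ.out).2 hm)
  obtain ⟨k, hk1, hk2⟩ := Nat.chineseRemainder hcop 1 0
  obtain ⟨k', hk1', hk2'⟩ := Nat.chineseRemainder hcop 0 1
  have hzp : ∀ k : ℕ, k ≡ 1 [MOD ℓ ^ b] → z ^ k = z := by
    intro k hk
    have h1 := (pow_eq_pow_iff_modEq (x := z) (n := k) (m := 1)).2
      (hk.of_dvd (orderOf_dvd_of_pow_eq_one hz))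
    rwa [pow_one] at h1
  have hz0 : ∀ k : ℕ, k ≡ 0 [MOD ℓ ^ b] → z ^ k = 1 := by
    intro k hk
    have h1 := (pow_eq_pow_iff_modEq (x := z) (n := k) (m := 0)).2
      (hk.of_dvd (orderOf_dvd_of_pow_eq_one hz))
    rwa [pow_zero] at h1
  have hsp : ∀ k : ℕ, k ≡ 1 [MOD m] → s ^ k = s := by
    intro k hk
    have h1 := (pow_eq_pow_iff_modEq (x := s) (n := k) (m := 1)).2
      (hk.of_dvd (orderOf_dvd_of_pow_eq_one hs))
    rwa [pow_one] at h1
  have hs0 : ∀ k : ℕ, k ≡ 0 [MOD m] → s ^ k = 1 := by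
    intro k hk
    have h1 := (pow_eq_pow_iff_modEq (x := s) (n := k) (m := 0)).2
      (hk.of_dvd (orderOf_dvd_of_pow_eq_one hs))
    rwa [pow_zero] at h1
  refine ⟨k, k', ?_, ?_⟩
  · rw [hc.mul_pow, hzp k hk1, hs0 k hk2, mul_one]
  · rw [hc.mul_pow, hz0 k' hk1', hsp k' hk2', one_mul]

/-- the `ℓ`-part and the `ℓ'`-part -/
theorem parts (x : G) : ∃ (y s : G) (e e' a m : ℕ), y = x ^ e ∧ s = x ^ e' ∧ y * s = x ∧
    y ^ (ℓ ^ a) = 1 ∧ s ^ m = 1 ∧ ¬ ℓ ∣ m := by
  obtain ⟨a, m, hm, hN⟩ := Nat.exists_eq_pow_mul_and_not_dvd (n := orderOf x)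
    (orderOf_pos x).ne' ℓ hℓ.out.ne_one
  have hcop : Nat.Coprime (ℓ ^ a) m :=
    Nat.Coprime.pow_left a ((Nat.Prime.coprime_iff_not_dvd hℓ.out).2 hm)
  obtain ⟨e, h1, h2⟩ := Nat.chineseRemainder hcop 1 0
  obtain ⟨e', h1', h2'⟩ := Nat.chineseRemainder hcop 0 1
  refine ⟨x ^ e, x ^ e', e, e', a, m, rfl, rfl, ?_, ?_, ?_, hm⟩
  · rw [← pow_add]
    have h3 : e + e' ≡ 1 [MOD orderOf x] := by
      rw [hN]
      refine (Nat.modEq_and_modEq_iff_modEq_mul hcop).1 ⟨?_, ?_⟩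
      · exact h1.add h1'
      · exact h2.add h2'
    have h4 := (pow_eq_pow_iff_modEq (x := x)).2 h3
    rwa [pow_one] at h4
  · rw [← pow_mul, ← orderOf_dvd_iff_pow_eq_one, hN, mul_comm]
    exact Nat.mul_dvd_mul ((Nat.modEq_zero_iff_dvd).1 h2) dvd_rfl
  · rw [← pow_mul, ← orderOf_dvd_iff_pow_eq_one, hN]
    exact Nat.mul_dvd_mul ((Nat.modEq_zero_iff_dvd).1 h1') dvd_rfl

/-- representatives of an equivalence relation on a finite set -/
theorem reps {α : Type} [Finite α] (A : Set α) (r : α → α → Prop) (hr : Equivalence r) :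
    ∃ T : Finset α, (∀ y ∈ T, y ∈ A) ∧ (∀ a ∈ A, ∃ y ∈ T, r y a) ∧
      ∀ y ∈ T, ∀ y' ∈ T, r y y' → y = y' := by
  classical
  have := Fintype.ofFinite α
  obtain ⟨f, hf⟩ : ∃ f : α → α, ∀ a, (r (f a) a) ∧ (a ∈ A → f a ∈ A) ∧
      ∀ b, r a b → (a ∈ A ↔ a ∈ A) → (∃ c ∈ A, r c a) → f a = f b := by
    let S : Setoid α := ⟨r, hr⟩
    refine ⟨fun a => if h : ∃ c ∈ A, r c a then
      (Classical.epsilon (h := ⟨a⟩) fun c => c ∈ A ∧ r c a) else a, fun a => ⟨?_, ?_, ?_⟩⟩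
    · by_cases h : ∃ c ∈ A, r c a
      · simp only [h, dif_pos]
        exact (@Classical.epsilon_spec_aux α ⟨a⟩ (fun c => c ∈ A ∧ r c a) h).2
      · simp only [h, dif_neg, not_false_iff]
        exact hr.refl a
    · intro ha
      have h : ∃ c ∈ A, r c a := ⟨a, ha, hr.refl a⟩
      simp only [h, dif_pos]
      exact (@Classical.epsilon_spec_aux α ⟨a⟩ (fun c => c ∈ A ∧ r c a) h).1
    · intro b hab _ h
      have h' : ∃ c ∈ A, r c b := by
        obtain ⟨c, hc, hca⟩ := h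
        exact ⟨c, hc, hr.trans hca hab⟩
      simp only [h, h', dif_pos]
      have : (fun c => c ∈ A ∧ r c a) = fun c => c ∈ A ∧ r c b := by
        funext c
        apply propext
        constructor
        · rintro ⟨h1, h2⟩
          exact ⟨h1, hr.trans h2 hab⟩
        · rintro ⟨h1, h2⟩
          exact ⟨h1, hr.trans h2 (hr.symm hab)⟩
      rw [this]
  refine ⟨(Finset.univ.filter fun a => a ∈ A).image f, ?_, ?_, ?_⟩
  · intro y hy
    obtain ⟨a, ha, rfl⟩ := Finset.mem_image.1 hy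
    exact (hf a).2.1 (Finset.mem_filter.1 ha).2
  · intro a ha
    exact ⟨f a, Finset.mem_image.2 ⟨a, Finset.mem_filter.2 ⟨Finset.mem_univ a, ha⟩, rfl⟩, (hf a).1⟩
  · intro y hy y' hy' h
    obtain ⟨a, ha, rfl⟩ := Finset.mem_image.1 hy
    obtain ⟨a', ha', rfl⟩ := Finset.mem_image.1 hy'
    have haA := (Finset.mem_filter.1 ha).2
    have h1 : r a a' := hr.trans (hr.symm (hf a).1) (hr.trans h (hf a').1)
    exact (hf a).2.2 a' h1 Iff.rfl ⟨a, haA, hr.refl a⟩

end Pool.Agent.PP.ML.H65
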