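import Pool.Agent.Helper66_ML.Stmts4
import Pool.Agent.Helper62_WRA.Dz1
import Pool.Agent.Helper50_PP.Chi
import Pool.Agent.Helper65_ML.EXG

/-!
# DEX: existence of defect groups (squad ML)
-/

open scoped BigOperators

noncomputable section

namespace Pool.Agent.PP.ML.H65x

open Pool.Agent.Helper51_AWC Pool.Agent.Helper79_WRA Pool.Agent.PP Pool.Agent.Helper98_CC
  Pool.Agent.PP.ML

variable {ℓ : ℕ} [hℓ : Fact ℓ.Prime]

/-- Sylow subgroups of a centraliser as subgroups of `G`. -/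
theorem exists_syl {G : Type} [Group G] [Finite G] (K : Subgroup G) :
    ∃ P : Subgroup G, IsPGroup ℓ P ∧ P ≤ K ∧ ¬ ℓ ∣ P.relIndex K := by
  obtain ⟨S⟩ : Nonempty (Sylow ℓ K) := inferInstance
  refine ⟨(S : Subgroup K).map K.subtype, S.isPGroup'.map _, Subgroup.map_subtype_le _, ?_⟩
  have h1 : ((S : Subgroup K).map K.subtype).relIndex K = (S : Subgroup K).index := by
    unfold Subgroup.relIndex
    rw [Subgroup.subgroupOf, Subgroup.comap_map_eq_self_of_injective K.subtype_injective]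
  rw [h1]
  exact S.not_dvd_index

/-- Large `ℓ`-subgroups are Sylow subgroups. -/
theorem syl_of_card {G : Type} [Group G] [Finite G] {K P E : Subgroup G} (hP : IsPGroup ℓ P)
    (hE : IsPGroup ℓ E) (hPK : P ≤ K) (hEK : E ≤ K) (hPi : ¬ ℓ ∣ P.relIndex K)
    (hc : Nat.card P ≤ Nat.card E) : ¬ ℓ ∣ E.relIndex K := by
  intro hd
  have h1 := Subgroup.relIndex_mul_relIndex (⊥ : Subgroup G) P K bot_le hPK
  have h2 := Subgroup.relIndex_mul_relIndex (⊥ : Subgroup G) E K bot_le hEK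
  rw [Subgroup.relIndex_bot_left, Subgroup.relIndex_bot_left] at h1 h2
  obtain ⟨a, ha⟩ := IsPGroup.iff_card.1 hP
  obtain ⟨b, hb⟩ := IsPGroup.iff_card.1 hE
  rw [ha] at h1
  rw [hb] at h2
  rw [ha, hb] at hc
  have hab : a ≤ b := (Nat.pow_le_pow_iff_right hℓ.out.one_lt).1 hc
  have h3 : ℓ ^ (a + 1) ∣ ℓ ^ a * P.relIndex K := by
    rw [h1, ← h2, pow_succ]
    exact mul_dvd_mul (pow_dvd_pow ℓ hab) hd
  rw [pow_succ] at h3
  exact hPi (Nat.dvd_of_mul_dvd_mul_left (pow_pos hℓ.out.pos a) h3)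

section act
variable {G : Type} [Group G]

/-- the pairs `(u, v)`, `u ∼ y`, `v ∼ y'`, `u v = h` -/
def Prs (y y' h : G) : Type := {u : G // IsConj y u ∧ IsConj y' (u⁻¹ * h)}

/-- conjugation with the elements of a subgroup `P` of the centraliser of `h` -/
def actPrs (y y' h : G) (P : Subgroup G) (hP : ∀ c ∈ P, c * h = h * c) :
    MulAction P (Prs y y' h) where
  smul c u := ⟨c * u.1 * (c : G)⁻¹, u.2.1.trans (isConj_iff.2 ⟨c, rfl⟩), by
    refine u.2.2.trans (isConj_iff.2 ⟨c, ?_⟩)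
    have h1 := hP c c.2
    have h2 : (c : G)⁻¹ * h = h * (c : G)⁻¹ := by
      rw [inv_mul_eq_iff_eq_mul, ← mul_assoc, h1, mul_assoc, mul_inv_cancel, mul_one]
    calc (c : G) * (u.1⁻¹ * h) * (c : G)⁻¹ = c * u.1⁻¹ * (h * (c : G)⁻¹) := by group
      _ = c * u.1⁻¹ * ((c : G)⁻¹ * h) := by rw [h2]
      _ = (c * u.1 * (c : G)⁻¹)⁻¹ * h := by group⟩
  one_smul u := by
    apply Subtype.ext
    show ((1 : P) : G) * u.1 * ((1 : P) : G)⁻¹ = u.1
    simp
  mul_smul c d u := by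
    apply Subtype.ext
    show ((c * d : P) : G) * u.1 * ((c * d : P) : G)⁻¹ = c * (d * u.1 * (d : G)⁻¹) * (c : G)⁻¹
    rw [Subgroup.coe_mul]
    group

/-- a fixed point -/
theorem fixed [Finite G] {y y' h : G} {P : Subgroup G} (hPp : IsPGroup ℓ P)
    (hP : ∀ c ∈ P, c * h = h * c) (hn : ¬ ℓ ∣ Nat.card (Prs y y' h)) :
    ∃ u : G, IsConj y u ∧ IsConj y' (u⁻¹ * h) ∧ ∀ c ∈ P, c * u = u * c := by
  letI := actPrs y y' h P hP
  have : Finite (Prs y y' h) := Subtype.finite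
  obtain ⟨u, hu⟩ := hPp.nonempty_fixed_point_of_prime_not_dvd_card (Prs y y' h) hn
  refine ⟨u.1, u.2.1, u.2.2, fun c hc => ?_⟩
  have h1 := congrArg Subtype.val (hu ⟨c, hc⟩)
  have h2 : c * u.1 * c⁻¹ = u.1 := h1
  rw [mul_inv_eq_iff_eq_mul] at h2
  exact h2

theorem card_prs [Fintype G] (y y' h : G) [∀ u, Decidable (IsConj y u)]
    [∀ u, Decidable (IsConj y' u)] :
    ∑ u : G, (if IsConj y u then (1 : ℂ) else 0) * (if IsConj y' (u⁻¹ * h) then (1 : ℂ) else 0) =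
      (Nat.card (Prs y y' h) : ℂ) := by
  classical
  have h1 : ∀ u : G, (if IsConj y u then (1 : ℂ) else 0) *
      (if IsConj y' (u⁻¹ * h) then (1 : ℂ) else 0) =
      if (IsConj y u ∧ IsConj y' (u⁻¹ * h)) then 1 else 0 := by
    intro u
    by_cases h1 : IsConj y u
    · by_cases h2 : IsConj y' (u⁻¹ * h)
      · rw [if_pos h1, if_pos h2, if_pos ⟨h1, h2⟩, one_mul]
      · rw [if_neg h2, mul_zero,
          if_neg (fun hh : IsConj y u ∧ IsConj y' (u⁻¹ * h) => h2 hh.2)]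
    · rw [if_neg h1, zero_mul,
        if_neg (fun hh : IsConj y u ∧ IsConj y' (u⁻¹ * h) => h1 hh.1)]
  rw [Finset.sum_congr rfl fun u _ => h1 u, Finset.sum_boole, Prs, Nat.card_eq_fintype_card,
    Fintype.card_subtype]

theorem card_prs_conj [Finite G] (y y' h g : G) :
    Nat.card (Prs y y' (g * h * g⁻¹)) = Nat.card (Prs y y' h) := by
  refine Nat.card_congr ⟨fun u => ⟨g⁻¹ * u.1 * g, ?_, ?_⟩, fun u => ⟨g * u.1 * g⁻¹, ?_, ?_⟩, ?_, ?_⟩
  · exact u.2.1.trans (isConj_iff.2 ⟨g⁻¹, by group⟩)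
  · exact u.2.2.trans (isConj_iff.2 ⟨g⁻¹, by group⟩)
  · exact u.2.1.trans (isConj_iff.2 ⟨g, by group⟩)
  · exact u.2.2.trans (isConj_iff.2 ⟨g, by group⟩)
  · intro u
    apply Subtype.ext
    show g * (g⁻¹ * u.1 * g) * g⁻¹ = u.1
    group
  · intro u
    apply Subtype.ext
    show g⁻¹ * (g * u.1 * g⁻¹) * g = u.1
    group

end act

/-- the product of two values modulo `M` -/
theorem prod_ne {M : Ideal (integralClosure ℤ ℂ)} [hM : M.IsMaximal]
    (hl : (ℓ : integralClosure ℤ ℂ) ∈ M) {G : Type} [Group G] [Finite G] {χ : G → ℂ}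
    (hχ : χ ∈ Irr G) {y y' : G} (hy : red M (omega (MonoidHom.id G) χ y) ≠ 0)
    (hy' : red M (omega (MonoidHom.id G) χ y') ≠ 0) :
    ∃ h : G, red M (omega (MonoidHom.id G) χ h) ≠ 0 ∧ ¬ ℓ ∣ Nat.card (Prs y y' h) := by
  classical
  have := Fintype.ofFinite G
  have hint : ∀ g, IsIntegral ℤ (omega (MonoidHom.id G) χ g) := fun g =>
    omega_integral (MonoidHom.id G) hχ g
  obtain ⟨a, ha⟩ : ∃ a : G → G → ℂ, a = fun y u => if IsConj y u then (1 : ℂ) else 0 := ⟨_, rfl⟩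
  have hom : ∀ y, H50.om (a y) χ = omega (MonoidHom.id G) χ y := by
    intro y
    rw [H50.om, omega_eq, ha]
    congr 1
    refine Finset.sum_congr rfl fun t _ => ?_
    show (if IsConj y t then (1 : ℂ) else 0) * χ t = _
    rw [MonoidHom.id_apply]
    by_cases h1 : IsConj y t
    · rw [if_pos h1, if_pos h1, one_mul]
    · rw [if_neg h1, if_neg h1, zero_mul]
  have hcl : ∀ y x z, a y (z * x * z⁻¹) = a y x := by
    intro y x z
    rw [ha]
    show (if IsConj y (z * x * z⁻¹) then (1 : ℂ) else 0) = if IsConj y x then (1 : ℂ) else 0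
    have h1 : IsConj x (z * x * z⁻¹) := isConj_iff.2 ⟨z, rfl⟩
    exact if_congr ⟨fun h => h.trans h1.symm, fun h => h.trans h1⟩ rfl rfl
  have h1 := H50.om_mul (a := a y) (b := a y') (fun x z => hcl y' x z) hχ
  have h2 : (fun z => ∑ h, a y h * a y' (h⁻¹ * z)) = fun z => (Nat.card (Prs y y' z) : ℂ) := by
    funext z
    rw [ha]
    exact card_prs y y' z
  rw [h2, hom, hom, H50.om] at h1
  have hF : ∀ g h : G, (Nat.card (Prs y y' (h * g * h⁻¹)) : ℂ) = (Nat.card (Prs y y' g) : ℂ) := by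
    intro g h
    rw [card_prs_conj]
  have hFi : ∀ g : G, IsIntegral ℤ ((Nat.card (Prs y y' g) : ℂ)) := by
    intro g
    have := isIntegral_algebraMap (R := ℤ) (A := ℂ) (x := ((Nat.card (Prs y y' g) : ℕ) : ℤ))
    simpa using this
  have : Fintype (ConjClasses G) := Fintype.ofFinite _
  have h3 := H62.red_val_classes M (F := fun z => (Nat.card (Prs y y' z) : ℂ)) hF hFi hint
  rw [h1, red_mul (hint y) (hint y')] at h3
  letI := Ideal.Quotient.field M
  have h4 : red M (omega (MonoidHom.id G) χ y) * red M (omega (MonoidHom.id G) χ y') ≠ 0 :=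
    mul_ne_zero hy hy'
  rw [h3] at h4
  obtain ⟨C, -, hC⟩ := Finset.exists_ne_zero_of_sum_ne_zero h4
  refine ⟨Quotient.out C, ?_, ?_⟩
  · intro h0
    apply hC
    have h5 : labF M χ (Quotient.out C) = red M (omega (MonoidHom.id G) χ (Quotient.out C)) := rfl
    rw [h5, h0, mul_zero]
  · intro hd
    apply hC
    have h6 : red M ((Nat.card (Prs y y' (Quotient.out C)) : ℂ)) =
        ((Nat.card (Prs y y' (Quotient.out C)) : ℕ) : FF M) := by
      rw [red_of (hFi _)]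
      have h7 : (⟨(Nat.card (Prs y y' (Quotient.out C)) : ℂ), hFi _⟩ : integralClosure ℤ ℂ) =
          ((Nat.card (Prs y y' (Quotient.out C)) : ℕ) : integralClosure ℤ ℂ) := by
        apply Subtype.ext
        simp
      rw [h7, map_natCast]
    rw [h6, H65.nat_zero hl hd, zero_mul]

/-- Row DEX. -/
theorem dex : DexStmt := by
  intro ℓ _ M _ hl G _ _ χ hχ
  classical
  have hcent : ∀ (a w : G), w ∈ Subgroup.centralizer ({a} : Set G) ↔ w * a = a * w := by
    intro a w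
    rw [Subgroup.mem_centralizer_singleton_iff]
  choose P hPp hPle hPi using fun y : G =>
    exists_syl (ℓ := ℓ) (Subgroup.centralizer ({y} : Set G))
  have := Fintype.ofFinite G
  obtain ⟨S, hS⟩ : ∃ S : Finset G,
      S = Finset.univ.filter fun y => red M (omega (MonoidHom.id G) χ y) ≠ 0 := ⟨_, rfl⟩
  have hSm : ∀ y, y ∈ S ↔ red M (omega (MonoidHom.id G) χ y) ≠ 0 := by
    intro y
    rw [hS, Finset.mem_filter]
    exact ⟨fun h => h.2, fun h => ⟨Finset.mem_univ _, h⟩⟩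
  have h1S : (1 : G) ∈ S := by
    rw [hSm, omega_one Function.injective_id (irr_one_ne hχ), red_one]
    letI := Ideal.Quotient.field M
    exact one_ne_zero
  obtain ⟨y, hyS, hymin⟩ := Finset.exists_min_image S (fun y => Nat.card (P y)) ⟨1, h1S⟩
  have hy := (hSm y).1 hyS
  refine ⟨P y, hPp y, ⟨y, (H65.red_ne_iff hχ y).2 hy, hPle y, hPi y⟩, ?_⟩
  intro y' hy'
  rw [H65.red_ne_iff hχ y'] at hy'
  obtain ⟨h, hh, hn⟩ := prod_ne hl hχ hy hy'
  obtain ⟨u, hu1, hu2, hu3⟩ := fixed (hPp h) (fun c hc => (hcent h c).1 (hPle h hc)) hn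
  obtain ⟨g, hg⟩ := isConj_iff.1 hu1
  obtain ⟨g', hg'⟩ := isConj_iff.1 hu2
  -- the conjugate of `P h` in the centralizer of `y`
  obtain ⟨E, hE⟩ : ∃ E : Subgroup G, E = (P h).map (MulAut.conj g⁻¹).toMonoidHom := ⟨_, rfl⟩
  have hEm : ∀ w, w ∈ E ↔ g * w * g⁻¹ ∈ P h := by
    intro w
    rw [hE, Subgroup.mem_map]
    constructor
    · rintro ⟨d, hd, rfl⟩
      have : g * ((MulAut.conj g⁻¹).toMonoidHom d) * g⁻¹ = d := by
        show g * (g⁻¹ * d * g⁻¹⁻¹) * g⁻¹ = d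
        group
      rwa [this]
    · intro hw
      refine ⟨_, hw, ?_⟩
      show g⁻¹ * (g * w * g⁻¹) * g⁻¹⁻¹ = w
      group
  have hEp : IsPGroup ℓ E := by
    rw [hE]
    exact (hPp h).map _
  have hEle : E ≤ Subgroup.centralizer ({y} : Set G) := by
    intro w hw
    rw [hEm] at hw
    rw [hcent]
    have h1 := hu3 _ hw
    rw [← hg] at h1
    have h2 : g * w * g⁻¹ * (g * y * g⁻¹) = g * (w * y) * g⁻¹ := by group
    have h3 : g * y * g⁻¹ * (g * w * g⁻¹) = g * (y * w) * g⁻¹ := by group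
    rw [h2, h3] at h1
    exact mul_left_cancel (mul_right_cancel h1)
  have hEc : Nat.card E = Nat.card (P h) := by
    rw [hE]
    exact Nat.card_congr
      ((P h).equivMapOfInjective _ (MulAut.conj g⁻¹).injective).toEquiv.symm
  have hEi : ¬ ℓ ∣ E.relIndex (Subgroup.centralizer ({y} : Set G)) := by
    refine syl_of_card (hPp y) hEp (hPle y) hEle (hPi y) ?_
    rw [hEc]
    exact hymin h ((hSm h).2 hh)
  obtain ⟨c, hc, hc2⟩ := H65.syl_conj hEp (hPp y) hEle (hPle y) hEi (hPi y)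
  -- `P y` is conjugate into `P h`, which commutes with `u⁻¹ h`
  refine ⟨g'⁻¹ * (g * c), fun d hd => ?_⟩
  have h1 : c * d * c⁻¹ ∈ E := (hc2 d).1 hd
  rw [hEm] at h1
  have h2 : g * (c * d * c⁻¹) * g⁻¹ = (g * c) * d * (g * c)⁻¹ := by group
  rw [h2] at h1
  obtain ⟨w, hw⟩ : ∃ w : G, w = (g * c) * d * (g * c)⁻¹ := ⟨_, rfl⟩
  rw [← hw] at h1
  have h3 := hu3 w h1
  have h4 := (hcent h w).1 (hPle h h1)
  have h5 : w * (u⁻¹ * h) = (u⁻¹ * h) * w := by
    have h6 : w * u⁻¹ = u⁻¹ * w := by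
      rw [eq_inv_mul_iff_mul_eq, ← mul_assoc, ← h3, mul_assoc, mul_inv_cancel, mul_one]
    rw [← mul_assoc, h6, mul_assoc, h4, mul_assoc]
  rw [← hg'] at h5
  have h7 : g'⁻¹ * (g * c) * d * (g'⁻¹ * (g * c))⁻¹ = g'⁻¹ * w * g' := by
    rw [hw]
    group
  rw [h7]
  calc g'⁻¹ * w * g' * y' = g'⁻¹ * (w * (g' * y' * g'⁻¹)) * g' := by group
    _ = g'⁻¹ * (g' * y' * g'⁻¹ * w) * g' := by rw [h5]
    _ = y' * (g'⁻¹ * w * g') := by group

end Pool.Agent.PP.ML.H65x
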